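import Pool.Agent.LindAlg.Defs

/-!
# A positive (`Σ⁰₁`) numerated Boolean algebra without computable ultrafilters
-/

namespace Pool.Agent.LindAlg

open Nat.Partrec (Code)
open Denumerable (ofNat)

/-! ### The hierarchy -/

theorem IsSigma.congr {n : ℕ} {p q : ℕ → Prop} (hp : IsSigma n p) (h : ∀ x, p x ↔ q x) :
    IsSigma n q := by
  have : p = q := funext fun x => propext (h x)
  exact this ▸ hp

theorem IsSigma.comp {n : ℕ} : ∀ {p : ℕ → Prop}, IsSigma n p → ∀ {f : ℕ → ℕ}, Computable f →
    IsSigma n fun x => p (f x) := by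
  induction n with
  | zero =>
    rintro p ⟨hd, hp⟩ f hf
    exact ⟨fun x => hd (f x), hp.comp hf⟩
  | succ n ih =>
    rintro p ⟨q, hq, hpq⟩ f hf
    refine ⟨fun z => q (Nat.pair (f z.unpair.1) z.unpair.2), ih hq ?_, fun x => ?_⟩
    · exact Primrec₂.natPair.to_comp.comp (hf.comp (Computable.fst.comp Computable.unpair))
        (Computable.snd.comp Computable.unpair)
    · refine (hpq (f x)).trans ?_
      simp

theorem IsPi.isSigma_succ {n : ℕ} {p : ℕ → Prop} (hp : IsPi n p) : IsSigma (n + 1) p := by
  refine ⟨fun z => ¬ p z.unpair.1, ?_, fun x => ?_⟩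
  · exact IsSigma.comp (p := fun x => ¬ p x) hp (Computable.fst.comp Computable.unpair)
  · simp

theorem IsSigma.succ {n : ℕ} : ∀ {p : ℕ → Prop}, IsSigma n p → IsSigma (n + 1) p := by
  induction n with
  | zero =>
    intro p hp
    refine IsPi.isSigma_succ ?_
    exact ComputablePred.not hp
  | succ n ih =>
    rintro p ⟨q, hq, hpq⟩
    exact ⟨q, ih hq, hpq⟩

theorem IsSigma.of_one {p : ℕ → Prop} (hp : IsSigma 1 p) (n : ℕ) : IsSigma (n + 1) p := by
  induction n with
  | zero => exact hp
  | succ n ih => exact ih.succ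

theorem IsSigma.isPi_of_one {p : ℕ → Prop} (hp : IsSigma 1 p) (n : ℕ) : IsPi (n + 2) p := by
  refine IsPi.isSigma_succ (p := fun x => ¬ p x) ?_
  exact (hp.of_one n).congr fun x => not_not.symm

/-! ### Boolean terms -/

/-- The value of the `n`-th Boolean term at the valuation `x`. -/
def evalTerm (x : ℕ → Bool) (n : ℕ) : Bool :=
  if n % 4 = 0 then x (n / 4)
  else if n % 4 = 1 then !(evalTerm x (n / 4))
  else if n % 4 = 2 then (evalTerm x (n / 4).unpair.1 || evalTerm x (n / 4).unpair.2)
  else (evalTerm x (n / 4).unpair.1 && evalTerm x (n / 4).unpair.2)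
termination_by n
decreasing_by
  · omega
  · exact lt_of_le_of_lt (Nat.unpair_left_le _) (by omega)
  · exact lt_of_le_of_lt (Nat.unpair_right_le _) (by omega)
  · exact lt_of_le_of_lt (Nat.unpair_left_le _) (by omega)
  · exact lt_of_le_of_lt (Nat.unpair_right_le _) (by omega)

theorem evalTerm_var (x : ℕ → Bool) (k : ℕ) : evalTerm x (4 * k) = x k := by
  rw [evalTerm]
  have h1 : 4 * k % 4 = 0 := by omega
  have h2 : 4 * k / 4 = k := by omega
  simp [h2]

theorem evalTerm_not (x : ℕ → Bool) (k : ℕ) : evalTerm x (4 * k + 1) = !(evalTerm x k) := by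
  rw [evalTerm]
  have h1 : (4 * k + 1) % 4 = 1 := by omega
  have h2 : (4 * k + 1) / 4 = k := by omega
  simp [h1, h2]

theorem evalTerm_or (x : ℕ → Bool) (k l : ℕ) :
    evalTerm x (4 * Nat.pair k l + 2) = (evalTerm x k || evalTerm x l) := by
  rw [evalTerm]
  have h1 : (4 * Nat.pair k l + 2) % 4 = 2 := by omega
  have h2 : (4 * Nat.pair k l + 2) / 4 = Nat.pair k l := by omega
  simp [h1, h2]

theorem evalTerm_and (x : ℕ → Bool) (k l : ℕ) :
    evalTerm x (4 * Nat.pair k l + 3) = (evalTerm x k && evalTerm x l) := by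
  rw [evalTerm]
  have h1 : (4 * Nat.pair k l + 3) % 4 = 3 := by omega
  have h2 : (4 * Nat.pair k l + 3) / 4 = Nat.pair k l := by omega
  simp [h1, h2]

theorem evalTerm_congr {x y : ℕ → Bool} (n : ℕ) (h : ∀ i ≤ n, x i = y i) :
    evalTerm x n = evalTerm y n := by
  induction n using Nat.strong_induction_on with
  | _ n ih =>
    rw [evalTerm.eq_def x n, evalTerm.eq_def y n]
    split_ifs with h0 h1 h2
    · exact h _ (Nat.div_le_self _ _)
    · rw [ih (n / 4) (by omega) fun i hi => h i (by omega)]
    · have e1 := Nat.unpair_left_le (n / 4)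
      have e2 := Nat.unpair_right_le (n / 4)
      rw [ih _ (lt_of_le_of_lt e1 (by omega)) fun i hi => h i (by omega),
        ih _ (lt_of_le_of_lt e2 (by omega)) fun i hi => h i (by omega)]
    · have e1 := Nat.unpair_left_le (n / 4)
      have e2 := Nat.unpair_right_le (n / 4)
      rw [ih _ (lt_of_le_of_lt e1 (by omega)) fun i hi => h i (by omega),
        ih _ (lt_of_le_of_lt e2 (by omega)) fun i hi => h i (by omega)]

/-! ### Computability of the evaluation -/

theorem primrec_pow2 : Primrec fun n : ℕ => 2 ^ n := by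
  have : Primrec₂ fun a b : ℕ => a ^ b := Primrec₂.unpaired'.1 Nat.Primrec.pow
  exact this.comp (Primrec.const 2) Primrec.id

theorem primrec_testBit : Primrec₂ fun u i : ℕ => Nat.testBit u i := by
  have h1 : Primrec₂ fun u i : ℕ => u / 2 ^ i % 2 :=
    Primrec.nat_mod.comp₂ (Primrec.nat_div.comp₂ Primrec₂.left
      (primrec_pow2.comp₂ Primrec₂.right)) (Primrec₂.const 2)
  have h2 : Primrec₂ fun u i : ℕ => decide (u / 2 ^ i % 2 = 1) :=
    (PrimrecRel.decide Primrec.eq).comp₂ h1 (Primrec₂.const 1)
  exact h2.of_eq fun u i => (Nat.testBit_eq_decide_div_mod_eq).symm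

/-- One step of the evaluation. -/
def stepEval (u : ℕ) (l : List Bool) : Bool :=
  if l.length % 4 = 0 then Nat.testBit u (l.length / 4)
  else if l.length % 4 = 1 then !(l.getD (l.length / 4) false)
  else if l.length % 4 = 2 then
    (l.getD (l.length / 4).unpair.1 false || l.getD (l.length / 4).unpair.2 false)
  else (l.getD (l.length / 4).unpair.1 false && l.getD (l.length / 4).unpair.2 false)

theorem primrec_stepEval : Primrec₂ stepEval := by
  have hl : Primrec fun p : ℕ × List Bool => p.2.length := Primrec.list_length.comp Primrec.snd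
  have hm : Primrec fun p : ℕ × List Bool => p.2.length % 4 :=
    Primrec.nat_mod.comp hl (Primrec.const 4)
  have hq : Primrec fun p : ℕ × List Bool => p.2.length / 4 :=
    Primrec.nat_div.comp hl (Primrec.const 4)
  have hu := Primrec.unpair.comp hq
  have h1 : Primrec fun p : ℕ × List Bool => p.2.getD (p.2.length / 4).unpair.1 false :=
    (Primrec.list_getD false).comp Primrec.snd (Primrec.fst.comp hu)
  have h2 : Primrec fun p : ℕ × List Bool => p.2.getD (p.2.length / 4).unpair.2 false :=
    (Primrec.list_getD false).comp Primrec.snd (Primrec.snd.comp hu)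
  have h3 : Primrec fun p : ℕ × List Bool => p.2.getD (p.2.length / 4) false :=
    (Primrec.list_getD false).comp Primrec.snd hq
  refine Primrec.ite (Primrec.eq.comp hm (Primrec.const 0)) (primrec_testBit.comp Primrec.fst hq) ?_
  refine Primrec.ite (Primrec.eq.comp hm (Primrec.const 1)) (Primrec.not.comp h3) ?_
  refine Primrec.ite (Primrec.eq.comp hm (Primrec.const 2)) (Primrec.or.comp h1 h2) ?_
  exact Primrec.and.comp h1 h2

theorem primrec_evalTerm : Primrec₂ fun (u n : ℕ) => evalTerm (Nat.testBit u) n := by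
  refine Primrec.nat_strong_rec _ (g := fun u l => some (stepEval u l))
    (Primrec.option_some.comp₂ primrec_stepEval) fun u n => ?_
  rw [evalTerm, stepEval]
  simp only [List.length_map, List.length_range]
  have key : ∀ k, k < n → ((List.range n).map fun m => evalTerm (Nat.testBit u) m).getD k false =
      evalTerm (Nat.testBit u) k := by
    intro k hk
    simp [List.getD, hk]
  have e1 := Nat.unpair_left_le (n / 4)
  have e2 := Nat.unpair_right_le (n / 4)
  split_ifs with h0 h1 h2
  · rfl
  · rw [key _ (by omega)]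
  · rw [key _ (by omega), key _ (by omega)]
  · rw [key _ (by omega), key _ (by omega)]

/-! ### Two recursively inseparable c.e. sets -/

/-- `e` is enumerated at stage `s` into the set of `e` with `φ_e(e) = c`. -/
def Stage (c s e : ℕ) : Prop := Code.evaln s (ofNat Code e) e = some c

theorem primrec_stage (c : ℕ) : PrimrecRel fun s e => Stage c s e := by
  have h : Primrec fun p : ℕ × ℕ => Code.evaln p.1 (ofNat Code p.2) p.2 :=
    Nat.Partrec.Code.primrec_evaln.comp
      ((Primrec.fst.pair ((Primrec.ofNat Code).comp Primrec.snd)).pair Primrec.snd)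
  exact Primrec.eq.comp h (Primrec.const (some c))

/-- `φ_e(e) = c`. -/
def Diag (c e : ℕ) : Prop := ∃ s, Stage c s e

theorem Stage.mono {c s t e : ℕ} (hst : s ≤ t) (h : Stage c s e) : Stage c t e :=
  Nat.Partrec.Code.evaln_mono hst h

theorem diag_iff {c e : ℕ} : Diag c e ↔ c ∈ Code.eval (ofNat Code e) e :=
  Nat.Partrec.Code.evaln_complete.symm

theorem diag_disjoint {e : ℕ} (h0 : Diag 0 e) (h1 : Diag 1 e) : False := by
  rw [diag_iff] at h0 h1
  exact absurd (Part.mem_unique h0 h1) (by norm_num)

/-- No computable set separates `{e : φ_e(e) = 0}` from `{e : φ_e(e) = 1}`. -/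
theorem inseparable {S : ℕ → Bool} (hS : Computable S) (h0 : ∀ e, Diag 0 e → S e = true)
    (h1 : ∀ e, Diag 1 e → S e = false) : False := by
  have hf : Computable fun e => (if S e = true then 1 else 0 : ℕ) := by
    refine (Computable.cond hS (Computable.const 1) (Computable.const 0)).of_eq fun e => ?_
    cases S e <;> rfl
  obtain ⟨c, hc⟩ := Nat.Partrec.Code.exists_code.1 (Partrec.nat_iff.1 hf)
  set e := Encodable.encode c with he
  have hce : Code.eval (ofNat Code e) e = Part.some (if S e = true then 1 else 0) := by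
    rw [he, Denumerable.ofNat_encode, hc]
    rfl
  cases hSe : S e with
  | true =>
    have : Diag 1 e := diag_iff.2 (by rw [hce, hSe]; exact Part.mem_some _)
    rw [h1 e this] at hSe
    exact absurd hSe (by simp)
  | false =>
    have : Diag 0 e := diag_iff.2 (by rw [hce, hSe]; exact Part.mem_some _)
    rw [h0 e this] at hSe
    exact absurd hSe (by simp)

/-! ### The algebra -/

/-- The consistent valuations: `x e = 1` if `φ_e(e) = 0`, and `x e = 0` if `φ_e(e) = 1`. -/
def Val : Type := {x : ℕ → Bool // ∀ e, (Diag 0 e → x e = true) ∧ (Diag 1 e → x e = false)}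

/-- The element of the algebra described by the `n`-th term. -/
def value (n : ℕ) : Set Val := {x | evalTerm x.1 n = true}

theorem value_sup (m n : ℕ) : value m ⊔ value n = value (4 * Nat.pair m n + 2) := by
  ext x
  simp [value, evalTerm_or]

theorem value_inf (m n : ℕ) : value m ⊓ value n = value (4 * Nat.pair m n + 3) := by
  ext x
  simp [value, evalTerm_and]

theorem value_compl (n : ℕ) : (value n)ᶜ = value (4 * n + 1) := by
  ext x
  simp [value, evalTerm_not]

/-- The algebra as a Boolean subalgebra of the power set of the space of consistent valuations. -/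
def sub : BooleanSubalgebra (Set Val) where
  carrier := Set.range value
  supClosed' := by
    rintro _ ⟨m, rfl⟩ _ ⟨n, rfl⟩
    exact ⟨_, (value_sup m n).symm⟩
  infClosed' := by
    rintro _ ⟨m, rfl⟩ _ ⟨n, rfl⟩
    exact ⟨_, (value_inf m n).symm⟩
  compl_mem' := by
    rintro _ ⟨n, rfl⟩
    exact ⟨_, (value_compl n).symm⟩
  bot_mem' := by
    refine ⟨4 * Nat.pair 0 (4 * 0 + 1) + 3, ?_⟩
    rw [← value_inf, ← value_compl, inf_compl_eq_bot]

/-- The numerated algebra. -/
def exAlg : NumBA where
  B := sub
  ν n := ⟨value n, n, rfl⟩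
  surj := by
    rintro ⟨_, n, rfl⟩
    exact ⟨n, rfl⟩

theorem exAlg_eq_iff (m n : ℕ) : exAlg.ν m = exAlg.ν n ↔ value m = value n := by
  constructor
  · intro h
    exact congrArg Subtype.val h
  · intro h
    exact Subtype.ext h

/-- The valuation coded by `u` disagrees with stage `s` below `N`. -/
def Bad (N s u : ℕ) : Prop :=
  ∃ i < N, (Stage 0 s i ∧ Nat.testBit u i = false) ∨ (Stage 1 s i ∧ Nat.testBit u i = true)

/-- Stage `s` shows that the terms `m` and `n` are equal in the algebra. -/
def Shows (s m n : ℕ) : Prop :=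
  ∀ u < 2 ^ (m + n + 1),
    evalTerm (Nat.testBit u) m = evalTerm (Nat.testBit u) n ∨ Bad (m + n + 1) s u

theorem exists_code (N : ℕ) (x : ℕ → Bool) : ∃ u < 2 ^ N, ∀ i < N, Nat.testBit u i = x i := by
  refine ⟨Nat.ofBits fun i : Fin N => x i, Nat.ofBits_lt_two_pow _, fun i hi => ?_⟩
  rw [Nat.testBit_ofBits_lt _ _ hi]

theorem shows_iff (m n : ℕ) : (∃ s, Shows s m n) ↔ value m = value n := by
  constructor
  · rintro ⟨s, hs⟩
    ext x
    obtain ⟨u, hu, hux⟩ := exists_code (m + n + 1) x.1
    have hm : evalTerm (Nat.testBit u) m = evalTerm x.1 m :=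
      evalTerm_congr m fun i hi => hux i (by omega)
    have hn : evalTerm (Nat.testBit u) n = evalTerm x.1 n :=
      evalTerm_congr n fun i hi => hux i (by omega)
    rcases hs u hu with h | ⟨i, hi, h | h⟩
    · rw [hm, hn] at h
      simp [value, h]
    · exact absurd ((x.2 i).1 ⟨s, h.1⟩) (by rw [← hux i hi, h.2]; simp)
    · exact absurd ((x.2 i).2 ⟨s, h.1⟩) (by rw [← hux i hi, h.2]; simp)
  · intro h
    classical
    -- a stage that knows everything below `m + n + 1`
    have hst : ∀ N, ∃ s, ∀ i < N, ∀ c, (c = 0 ∨ c = 1) → Diag c i → Stage c s i := by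
      intro N
      induction N with
      | zero => exact ⟨0, fun i hi => absurd hi (by omega)⟩
      | succ N ih =>
        obtain ⟨s, hs⟩ := ih
        have h0 : ∃ s0, Diag 0 N → Stage 0 s0 N := by
          by_cases hd : Diag 0 N
          · exact ⟨hd.choose, fun _ => hd.choose_spec⟩
          · exact ⟨0, fun h => absurd h hd⟩
        have h1 : ∃ s1, Diag 1 N → Stage 1 s1 N := by
          by_cases hd : Diag 1 N
          · exact ⟨hd.choose, fun _ => hd.choose_spec⟩
          · exact ⟨0, fun h => absurd h hd⟩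
        obtain ⟨s0, h0⟩ := h0
        obtain ⟨s1, h1⟩ := h1
        refine ⟨max s (max s0 s1), fun i hi c hc hd => ?_⟩
        rcases Nat.lt_succ_iff_lt_or_eq.1 hi with hi | rfl
        · exact (hs i hi c hc hd).mono (le_max_left _ _)
        · rcases hc with rfl | rfl
          · exact (h0 hd).mono (le_trans (le_max_left _ _) (le_max_right _ _))
          · exact (h1 hd).mono (le_trans (le_max_right _ _) (le_max_right _ _))
    obtain ⟨s, hs⟩ := hst (m + n + 1)
    refine ⟨s, fun u _ => ?_⟩
    by_contra hcon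
    push Not at hcon
    obtain ⟨hne, hgood⟩ := hcon
    -- extend `u` to a consistent valuation
    let x : ℕ → Bool := fun e => if e < m + n + 1 then Nat.testBit u e else decide (Diag 0 e)
    have hx : ∀ e, (Diag 0 e → x e = true) ∧ (Diag 1 e → x e = false) := by
      intro e
      by_cases he : e < m + n + 1
      · simp only [x, he, if_true]
        constructor
        · intro hd
          by_contra hb
          exact hgood ⟨e, he, Or.inl ⟨hs e he 0 (Or.inl rfl) hd, by simpa using hb⟩⟩
        · intro hd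
          by_contra hb
          exact hgood ⟨e, he, Or.inr ⟨hs e he 1 (Or.inr rfl) hd, by simpa using hb⟩⟩
      · simp only [x, he, if_false]
        exact ⟨fun hd => by simp [hd], fun hd => by
          simp only [decide_eq_false_iff_not]
          exact fun h0 => diag_disjoint h0 hd⟩
    have hm : evalTerm (Nat.testBit u) m = evalTerm x m :=
      evalTerm_congr m fun i hi => (if_pos (show i < m + n + 1 by omega)).symm
    have hn : evalTerm (Nat.testBit u) n = evalTerm x n :=
      evalTerm_congr n fun i hi => (if_pos (show i < m + n + 1 by omega)).symm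
    have := Set.ext_iff.1 h ⟨x, hx⟩
    simp only [value] at this
    rw [hm, hn] at hne
    exact hne (Bool.eq_iff_iff.2 this)

theorem primrec_bad : PrimrecPred fun z : ℕ =>
    Bad z.unpair.1 z.unpair.2.unpair.1 z.unpair.2.unpair.2 := by
  -- parameters: `i` and `y = ⟨s, u⟩`
  have hR : PrimrecRel fun i y : ℕ =>
      (Stage 0 y.unpair.1 i ∧ Nat.testBit y.unpair.2 i = false) ∨
        (Stage 1 y.unpair.1 i ∧ Nat.testBit y.unpair.2 i = true) := by
    have hs : Primrec fun p : ℕ × ℕ => p.2.unpair.1 :=
      Primrec.fst.comp (Primrec.unpair.comp Primrec.snd)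
    have hu : Primrec fun p : ℕ × ℕ => p.2.unpair.2 :=
      Primrec.snd.comp (Primrec.unpair.comp Primrec.snd)
    have ht : Primrec fun p : ℕ × ℕ => Nat.testBit p.2.unpair.2 p.1 :=
      primrec_testBit.comp hu Primrec.fst
    exact (((primrec_stage 0).comp hs Primrec.fst).and (Primrec.eq.comp ht (Primrec.const false))).or
      (((primrec_stage 1).comp hs Primrec.fst).and (Primrec.eq.comp ht (Primrec.const true)))
  exact hR.exists_lt.comp (Primrec.fst.comp Primrec.unpair) (Primrec.snd.comp Primrec.unpair)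

theorem primrec_shows : PrimrecPred fun z : ℕ =>
    Shows z.unpair.2 z.unpair.1.unpair.1 z.unpair.1.unpair.2 := by
  -- parameters: `u` and `y = ⟨⟨m, n⟩, s⟩`
  have hs : Primrec fun p : ℕ × ℕ => p.2.unpair.2 :=
    Primrec.snd.comp (Primrec.unpair.comp Primrec.snd)
  have hx : Primrec fun p : ℕ × ℕ => p.2.unpair.1.unpair :=
    Primrec.unpair.comp (Primrec.fst.comp (Primrec.unpair.comp Primrec.snd))
  have hm : Primrec fun p : ℕ × ℕ => p.2.unpair.1.unpair.1 := Primrec.fst.comp hx
  have hn : Primrec fun p : ℕ × ℕ => p.2.unpair.1.unpair.2 := Primrec.snd.comp hx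
  have hN : Primrec fun p : ℕ × ℕ => p.2.unpair.1.unpair.1 + p.2.unpair.1.unpair.2 + 1 :=
    Primrec.succ.comp (Primrec.nat_add.comp hm hn)
  have hR : PrimrecRel fun u y : ℕ =>
      evalTerm (Nat.testBit u) y.unpair.1.unpair.1 = evalTerm (Nat.testBit u) y.unpair.1.unpair.2 ∨
        Bad (y.unpair.1.unpair.1 + y.unpair.1.unpair.2 + 1) y.unpair.2 u := by
    refine PrimrecPred.or ?_ ?_
    · exact Primrec.eq.comp (primrec_evalTerm.comp Primrec.fst hm)
        (primrec_evalTerm.comp Primrec.fst hn)
    · have := primrec_bad.comp (Primrec₂.natPair.comp hN (Primrec₂.natPair.comp hs Primrec.fst))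
      exact this.of_eq fun p => by simp
  have h2 : Primrec fun z : ℕ => 2 ^ (z.unpair.1.unpair.1 + z.unpair.1.unpair.2 + 1) :=
    primrec_pow2.comp (hN.comp ((Primrec.const 0).pair Primrec.id))
  exact hR.forall_lt.comp h2 Primrec.id

/-- Equality in the algebra is a `Σ⁰₁` relation. -/
theorem exAlg_sigma_one : IsSigma 1 fun x => exAlg.ν x.unpair.1 = exAlg.ν x.unpair.2 := by
  refine ⟨fun z => ¬ Shows z.unpair.2 z.unpair.1.unpair.1 z.unpair.1.unpair.2, ?_, fun x => ?_⟩
  · exact (PrimrecPred.not primrec_shows).computablePred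
  · refine (exAlg_eq_iff _ _).trans ((shows_iff _ _).symm.trans ?_)
    simp

theorem exAlg_isAlgebra {Ξ : (ℕ → Prop) → Prop} (hΞ : ∀ p, IsSigma 1 p → Ξ p) :
    exAlg.IsAlgebra Ξ := by
  refine ⟨⟨fun m n => 4 * Nat.pair m n + 2, ?_, fun m n => ?_⟩,
    ⟨fun m n => 4 * Nat.pair m n + 3, ?_, fun m n => ?_⟩, ⟨fun n => 4 * n + 1, ?_, fun n => ?_⟩,
    hΞ _ exAlg_sigma_one⟩
  · exact (Primrec.nat_add.comp (Primrec.nat_mul.comp (Primrec.const 4) Primrec₂.natPair)
      (Primrec.const 2)).to_comp
  · exact Subtype.ext (value_sup m n)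
  · exact (Primrec.nat_add.comp (Primrec.nat_mul.comp (Primrec.const 4) Primrec₂.natPair)
      (Primrec.const 3)).to_comp
  · exact Subtype.ext (value_inf m n)
  · exact (Primrec.nat_add.comp (Primrec.nat_mul.comp (Primrec.const 4) Primrec.id)
      (Primrec.const 1)).to_comp
  · exact Subtype.ext (value_compl n)

theorem exAlg_var_zero {e : ℕ} (h : Diag 0 e) : exAlg.ν (4 * e) = ⊤ := by
  refine Subtype.ext ?_
  ext x
  simp only [exAlg, value, evalTerm_var]
  exact ⟨fun _ => trivial, fun _ => (x.2 e).1 h⟩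

theorem exAlg_var_one {e : ℕ} (h : Diag 1 e) : exAlg.ν (4 * e) = ⊥ := by
  refine Subtype.ext ?_
  ext x
  simp only [exAlg, value, evalTerm_var]
  refine ⟨fun h' => ?_, fun h' => h'.elim⟩
  have h1 := (x.2 e).2 h
  have h2 : x.1 e = true := h'
  rw [h1] at h2
  exact absurd h2 (by simp)

theorem exAlg_top_ne_bot : (⊤ : exAlg.B) ≠ ⊥ := by
  classical
  intro h
  have h' : (⊤ : Set Val) = ⊥ := congrArg Subtype.val h
  let x : Val := ⟨fun e => decide (Diag 0 e), fun e => ⟨fun hd => by simp [hd], fun hd => by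
    simp only [decide_eq_false_iff_not]
    exact fun h0 => diag_disjoint h0 hd⟩⟩
  have hx : x ∈ (⊤ : Set Val) := trivial
  rw [h'] at hx
  exact hx

/-- The algebra has no computable ultrafilter; more precisely, no computable `{0,1}`-valued function `S` on
indices takes the value `1` at the indices of `⊤` and the value `0` at the indices of `⊥`. -/
theorem exAlg_no_separation {S : ℕ → Bool} (hS : Computable S)
    (h1 : ∀ n, exAlg.ν n = ⊤ → S n = true) (h0 : ∀ n, exAlg.ν n = ⊥ → S n = false) : False :=
  inseparable (S := fun e => S (4 * e))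
    (hS.comp (Primrec.nat_mul.comp (Primrec.const 4) Primrec.id).to_comp)
    (fun _ he => h1 _ (exAlg_var_zero he)) (fun _ he => h0 _ (exAlg_var_one he))

end Pool.Agent.LindAlg
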