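import Mathlib

/-!
# Numerated Boolean algebras, Lindenbaum algebras, strong constructivizations

Definitions for the question whether the numerated Lindenbaum algebra of the class of autostable
prime structures is `Π⁰₃`-universal.
-/

open FirstOrder

namespace Pool.Agent.LindAlg

/-! ### The arithmetical hierarchy (predicates on `ℕ`) -/

/-- `p` is a `Σ⁰ₙ` predicate: `Σ⁰₀` means computable, and `p ∈ Σ⁰ₙ₊₁` means that
`p x ↔ ∃ y, ¬ q ⟨x, y⟩` for some `q ∈ Σ⁰ₙ`. -/
def IsSigma : ℕ → (ℕ → Prop) → Prop
  | 0, p => ComputablePred p
  | n + 1, p => ∃ q : ℕ → Prop, IsSigma n q ∧ ∀ x, p x ↔ ∃ y, ¬ q (Nat.pair x y)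

/-- `p` is a `Π⁰ₙ` predicate: its negation is `Σ⁰ₙ`. -/
def IsPi (n : ℕ) (p : ℕ → Prop) : Prop := IsSigma n fun x => ¬ p x

/-! ### Numerated Boolean algebras -/

/-- A numerated Boolean algebra `(B, ν)`: a Boolean algebra with a map `ν` from `ℕ` onto it. -/
structure NumBA where
  /-- the underlying set -/
  B : Type
  /-- the Boolean algebra structure -/
  [ba : BooleanAlgebra B]
  /-- the numeration -/
  ν : ℕ → B
  surj : Function.Surjective ν

attribute [instance] NumBA.ba

/-- `(B, ν)` is a `Ξ`-algebra: join, meet and complement are induced by general recursive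
functions on indices, and `{⟨m, n⟩ : ν m = ν n}` is in `Ξ`. -/
def NumBA.IsAlgebra (Ξ : (ℕ → Prop) → Prop) (A : NumBA) : Prop :=
  (∃ f : ℕ → ℕ → ℕ, Computable₂ f ∧ ∀ m n, A.ν m ⊔ A.ν n = A.ν (f m n)) ∧
  (∃ f : ℕ → ℕ → ℕ, Computable₂ f ∧ ∀ m n, A.ν m ⊓ A.ν n = A.ν (f m n)) ∧
  (∃ f : ℕ → ℕ, Computable f ∧ ∀ n, (A.ν n)ᶜ = A.ν (f n)) ∧
  Ξ fun x => A.ν x.unpair.1 = A.ν x.unpair.2

/-- `A'` is isomorphic to the relative algebra `A[a]` of the elements below `a`, with the induced
numeration `n ↦ ν n ⊓ a`: some isomorphism `μ` is tracked in both directions by general recursive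
functions on indices. -/
def NumBA.IsoBelow (A' A : NumBA) (a : A.B) : Prop :=
  ∃ μ : A'.B ≃o Set.Iic a, ∃ f g : ℕ → ℕ, Computable f ∧ Computable g ∧
    (∀ n, μ (A'.ν n) = ⟨A.ν (f n) ⊓ a, inf_le_right⟩) ∧
    (∀ n, μ.symm ⟨A.ν n ⊓ a, inf_le_right⟩ = A'.ν (g n))

/-- `A` is `Ξ`-universal: it is a `Ξ`-algebra, and every numerated `Ξ`-algebra is isomorphic to
the relative algebra `A[a]` for some `a`. -/
def NumBA.IsUniversal (Ξ : (ℕ → Prop) → Prop) (A : NumBA) : Prop :=
  A.IsAlgebra Ξ ∧ ∀ A' : NumBA, A'.IsAlgebra Ξ → ∃ a : A.B, A'.IsoBelow A a

/-! ### Lindenbaum algebras -/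

section Lindenbaum

variable {L : FirstOrder.Language.{0, 0}}

/-- Equivalence of sentences modulo the theory `T`: `T ⊢ φ ↔ ψ`. -/
def sentenceSetoid (T : L.Theory) : Setoid L.Sentence where
  r φ ψ := T ⊨ᵇ φ.iff ψ
  iseqv :=
    { refl := fun φ M v xs => by simp
      symm := fun {φ ψ} h M v xs => by
        have := h M v xs
        simp only [Language.BoundedFormula.realize_iff] at this ⊢
        exact this.symm
      trans := fun {φ ψ χ} h1 h2 M v xs => by
        have := h1 M v xs
        have := h2 M v xs
        simp only [Language.BoundedFormula.realize_iff] at *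
        tauto }

/-- The Lindenbaum algebra `𝓛(T)` of the theory `T`: sentences modulo equivalence in `T`. -/
def Lindenbaum (T : L.Theory) : Type := Quotient (sentenceSetoid T)

/-- The class `[φ]` of the sentence `φ` in the Lindenbaum algebra. -/
def Lindenbaum.mk (T : L.Theory) (φ : L.Sentence) : Lindenbaum T :=
  Quotient.mk (sentenceSetoid T) φ

theorem models_iff_iff {T : L.Theory} {φ ψ : L.Sentence} :
    (T ⊨ᵇ φ.iff ψ) ↔ ∀ M : Language.Theory.ModelType.{0, 0, 0} T, (M ⊨ φ ↔ M ⊨ ψ) := by
  rw [Language.Theory.models_sentence_iff]
  exact forall_congr' fun M => Language.Formula.realize_iff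

theorem models_imp_iff {T : L.Theory} {φ ψ : L.Sentence} :
    (T ⊨ᵇ φ.imp ψ) ↔ ∀ M : Language.Theory.ModelType.{0, 0, 0} T, (M ⊨ φ → M ⊨ ψ) := by
  rw [Language.Theory.models_sentence_iff]
  exact forall_congr' fun M => Language.Formula.realize_imp

/-- The operations of the Lindenbaum algebra are induced by `∨`, `∧`, `¬`; the order is
provable implication. -/
instance Lindenbaum.instBooleanAlgebra (T : L.Theory) : BooleanAlgebra (Lindenbaum T) where
  le a b := Quotient.liftOn₂ a b (fun φ ψ => T ⊨ᵇ φ.imp ψ) (by
    intro φ ψ φ' ψ' h h'
    have h := models_iff_iff.1 h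
    have h' := models_iff_iff.1 h'
    refine propext (models_imp_iff.trans (Iff.trans ?_ models_imp_iff.symm))
    exact forall_congr' fun M => by rw [h M, h' M])
  sup a b := Quotient.liftOn₂ a b (fun φ ψ => Lindenbaum.mk T (φ ⊔ ψ)) (by
    intro φ ψ φ' ψ' h h'
    refine Quotient.sound (models_iff_iff.2 fun M => ?_)
    have h := models_iff_iff.1 h M
    have h' := models_iff_iff.1 h' M
    simp only [Language.Sentence.realize_sup, h, h'])
  inf a b := Quotient.liftOn₂ a b (fun φ ψ => Lindenbaum.mk T (φ ⊓ ψ)) (by
    intro φ ψ φ' ψ' h h'
    refine Quotient.sound (models_iff_iff.2 fun M => ?_)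
    have h := models_iff_iff.1 h M
    have h' := models_iff_iff.1 h' M
    simp only [Language.Sentence.realize_inf, h, h'])
  compl a := Quotient.liftOn a (fun φ => Lindenbaum.mk T (Language.Formula.not φ)) (by
    intro φ φ' h
    refine Quotient.sound (models_iff_iff.2 fun M => ?_)
    have h := models_iff_iff.1 h M
    simp only [Language.Sentence.realize_not, h])
  top := Lindenbaum.mk T ⊤
  bot := Lindenbaum.mk T ⊥
  le_refl a := by
    induction a using Quotient.inductionOn with | _ φ
    exact models_imp_iff.2 fun M h => h
  le_trans a b c := by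
    induction a using Quotient.inductionOn with | _ φ
    induction b using Quotient.inductionOn with | _ ψ
    induction c using Quotient.inductionOn with | _ χ
    intro h h'
    exact models_imp_iff.2 fun M hM => models_imp_iff.1 h' M (models_imp_iff.1 h M hM)
  le_antisymm a b := by
    induction a using Quotient.inductionOn with | _ φ
    induction b using Quotient.inductionOn with | _ ψ
    intro h h'
    exact Quotient.sound (models_iff_iff.2 fun M =>
      ⟨models_imp_iff.1 h M, models_imp_iff.1 h' M⟩)
  le_sup_left a b := by
    induction a using Quotient.inductionOn with | _ φ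
    induction b using Quotient.inductionOn with | _ ψ
    exact models_imp_iff.2 fun M h => (Language.Sentence.realize_sup M).2 (Or.inl h)
  le_sup_right a b := by
    induction a using Quotient.inductionOn with | _ φ
    induction b using Quotient.inductionOn with | _ ψ
    exact models_imp_iff.2 fun M h => (Language.Sentence.realize_sup M).2 (Or.inr h)
  sup_le a b c := by
    induction a using Quotient.inductionOn with | _ φ
    induction b using Quotient.inductionOn with | _ ψ
    induction c using Quotient.inductionOn with | _ χ
    intro h h'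
    exact models_imp_iff.2 fun M hM => ((Language.Sentence.realize_sup M).1 hM).elim
      (models_imp_iff.1 h M) (models_imp_iff.1 h' M)
  inf_le_left a b := by
    induction a using Quotient.inductionOn with | _ φ
    induction b using Quotient.inductionOn with | _ ψ
    exact models_imp_iff.2 fun M h => ((Language.Sentence.realize_inf M).1 h).1
  inf_le_right a b := by
    induction a using Quotient.inductionOn with | _ φ
    induction b using Quotient.inductionOn with | _ ψ
    exact models_imp_iff.2 fun M h => ((Language.Sentence.realize_inf M).1 h).2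
  le_inf a b c := by
    induction a using Quotient.inductionOn with | _ φ
    induction b using Quotient.inductionOn with | _ ψ
    induction c using Quotient.inductionOn with | _ χ
    intro h h'
    exact models_imp_iff.2 fun M hM => (Language.Sentence.realize_inf M).2
      ⟨models_imp_iff.1 h M hM, models_imp_iff.1 h' M hM⟩
  le_sup_inf a b c := by
    induction a using Quotient.inductionOn with | _ φ
    induction b using Quotient.inductionOn with | _ ψ
    induction c using Quotient.inductionOn with | _ χ
    refine models_imp_iff.2 fun M hM => ?_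
    simp only [Language.Sentence.realize_sup, Language.Sentence.realize_inf] at hM ⊢
    tauto
  inf_compl_le_bot a := by
    induction a using Quotient.inductionOn with | _ φ
    refine models_imp_iff.2 fun M hM => ?_
    simp only [Language.Sentence.realize_inf, Language.Sentence.realize_not] at hM
    exact absurd hM.1 hM.2
  top_le_sup_compl a := by
    induction a using Quotient.inductionOn with | _ φ
    refine models_imp_iff.2 fun M _ => ?_
    simp only [Language.Sentence.realize_sup, Language.Sentence.realize_not]
    exact em _
  le_top a := by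
    induction a using Quotient.inductionOn with | _ φ
    exact models_imp_iff.2 fun M _ => Language.Sentence.realize_top M
  bot_le a := by
    induction a using Quotient.inductionOn with | _ φ
    exact models_imp_iff.2 fun M h => absurd h (Language.Sentence.not_realize_bot M)

/-- The numerated Lindenbaum algebra `(𝓛(T), γ)`, `γ(n) = [Φₙ]`, for an enumeration `Φ` of all
sentences. -/
def lindenbaumNum (T : L.Theory) (Φ : ℕ → L.Sentence) (hΦ : Function.Surjective Φ) : NumBA where
  B := Lindenbaum T
  ν n := Lindenbaum.mk T (Φ n)
  surj := Quotient.mk_surjective.comp hΦ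

end Lindenbaum

/-! ### Classes of structures, strong constructivizations, autostability -/

section Structures

variable (L : FirstOrder.Language.{0, 0})

/-- A class of `L`-structures. -/
abbrev StructureClass : Type 1 := ∀ (M : Type) [L.Structure M], Prop

/-- The theory `Th(K)` of a class `K` of structures: the sentences true in every member of `K`. -/
def theoryOf (K : StructureClass L) : L.Theory :=
  {φ | ∀ (M : Type) [L.Structure M], K M → M ⊨ φ}

/-- A structure is prime: it is nonempty and embeds elementarily into every structure that is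
elementarily equivalent to it. -/
def IsPrimeStructure (M : Type) [L.Structure M] : Prop :=
  Nonempty M ∧ ∀ (N : Type) [L.Structure N], L.ElementarilyEquivalent M N → Nonempty (M ↪ₑ[L] N)

variable [Encodable (Σ n, L.Functions n)] [Encodable (Σ n, L.Relations n)]

/-- The Goedel number of a formula with free variables `x₀, x₁, …`: the number of its list of
symbols. -/
def goedelNumber (φ : L.Formula ℕ) : ℕ :=
  Encodable.encode (Language.BoundedFormula.listEncode φ)

/-- `Φ₀, Φ₁, …` is a Goedel enumeration of the sentences: every sentence is listed, and the Goedel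
number of `Φₙ` is a computable function of `n`. -/
def IsGoedelEnumeration (Φ : ℕ → L.Sentence) : Prop :=
  Function.Surjective Φ ∧ Computable fun n => goedelNumber L ((Φ n).relabel Empty.elim)

variable {M : Type} [L.Structure M]

/-- `ν : ℕ → M` is a strong constructivization of the structure `M`: it is onto, and the
elementary diagram of `(M, ν)` is decidable, i.e. some algorithm decides, given (the Goedel number
of) a formula `φ(x_{i₁}, …, x_{iₖ})`, whether `M ⊨ φ(ν i₁, …, ν iₖ)`. -/
def IsStrongConstructivization (ν : ℕ → M) : Prop :=
  Function.Surjective ν ∧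
    ∃ D : ℕ → Bool, Computable D ∧ ∀ φ : L.Formula ℕ, D (goedelNumber L φ) = true ↔ φ.Realize ν

omit [Encodable (Σ n, L.Functions n)] [Encodable (Σ n, L.Relations n)] in
/-- Two numerations of `M` are recursively isomorphic: some automorphism of `M` is tracked in both
directions by general recursive functions on indices. -/
def RecursivelyIsomorphic (ν₁ ν₂ : ℕ → M) : Prop :=
  ∃ (α : M ≃[L] M) (f g : ℕ → ℕ), Computable f ∧ Computable g ∧
    (∀ n, α (ν₁ n) = ν₂ (f n)) ∧ ∀ n, α.symm (ν₂ n) = ν₁ (g n)

variable (M)

/-- The structure `M` is autostable: it has a strong constructivization, and any two of them are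
recursively isomorphic. -/
def IsAutostable : Prop :=
  (∃ ν : ℕ → M, IsStrongConstructivization L ν) ∧
    ∀ ν₁ ν₂ : ℕ → M, IsStrongConstructivization L ν₁ → IsStrongConstructivization L ν₂ →
      RecursivelyIsomorphic L ν₁ ν₂

omit [L.Structure M] in
/-- The class `P ∩ A` of autostable prime structures. -/
def PrimeAutostable : StructureClass L :=
  fun (M : Type) [L.Structure M] => IsPrimeStructure L M ∧ IsAutostable L M

end Structures

end Pool.Agent.LindAlg
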