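import Pool.Agent.LindAlg.Alg

/-!
# Lindenbaum algebras of classes of strongly constructivizable structures are not universal
-/

open FirstOrder

namespace Pool.Agent.LindAlg

variable {L : FirstOrder.Language.{0, 0}}

/-- A nonzero class `[φ]` in `𝓛(Th(K))` is true in a member of `K`. -/
theorem exists_mem_of_mk_ne_bot (K : StructureClass L) {φ : L.Sentence}
    (h : Lindenbaum.mk (theoryOf L K) φ ≠ ⊥) : ∃ (M : Type) (_ : L.Structure M), K M ∧ M ⊨ φ := by
  by_contra hcon
  push Not at hcon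
  apply h
  refine Quotient.sound (models_iff_iff.2 fun M => ?_)
  have hmem : Language.Formula.not φ ∈ theoryOf L K :=
    fun N _ hN => (Language.Sentence.realize_not N).2 (hcon N _ hN)
  have hM : M ⊨ Language.Formula.not φ := Language.Theory.realize_sentence_of_mem _ hmem
  rw [Language.Sentence.realize_not] at hM
  exact ⟨fun h => absurd h hM, fun h => absurd h (Language.Sentence.not_realize_bot M)⟩

/-- If `[φ] ≤ [ψ]` in `𝓛(Th(K))` and a nonempty member of `K` satisfies `φ`, it satisfies `ψ`. -/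
theorem realize_of_le (K : StructureClass L) {φ ψ : L.Sentence}
    (h : Lindenbaum.mk (theoryOf L K) φ ≤ Lindenbaum.mk (theoryOf L K) ψ)
    (M : Type) [L.Structure M] [Nonempty M] (hM : K M) (hφ : M ⊨ φ) : M ⊨ ψ := by
  have hmod : M ⊨ theoryOf L K := ⟨fun χ hχ => hχ M hM⟩
  exact models_imp_iff.1 h (Language.Theory.ModelType.of (theoryOf L K) M) hφ

variable [Encodable (Σ n, L.Functions n)] [Encodable (Σ n, L.Relations n)]

/-- The theory of a structure with a strong constructivization is decidable. -/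
theorem decidable_theory {M : Type} [L.Structure M] {ν : ℕ → M}
    (hν : IsStrongConstructivization L ν) {Φ : ℕ → L.Sentence} (hΦ : IsGoedelEnumeration L Φ) :
    ∃ S : ℕ → Bool, Computable S ∧ ∀ n, S n = true ↔ M ⊨ Φ n := by
  obtain ⟨-, D, hD, hDφ⟩ := hν
  refine ⟨fun n => D (goedelNumber L ((Φ n).relabel Empty.elim)), hD.comp hΦ.2, fun n => ?_⟩
  rw [hDφ, Language.Formula.realize_relabel]
  exact iff_of_eq (congrArg _ (Subsingleton.elim _ _))

/-- `𝓛(Th(K))` has no relative algebra isomorphic to the algebra `exAlg`, for every class `K` of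
structures that have strong constructivizations. -/
theorem not_isoBelow (K : StructureClass L)
    (hK : ∀ (M : Type) [L.Structure M], K M → ∃ ν : ℕ → M, IsStrongConstructivization L ν)
    {Φ : ℕ → L.Sentence} (hΦ : IsGoedelEnumeration L Φ) (a : Lindenbaum (theoryOf L K))
    (h : exAlg.IsoBelow (lindenbaumNum (theoryOf L K) Φ hΦ.1) a) : False := by
  obtain ⟨μ, f, g, hf, -, hμ, -⟩ := h
  -- `a` is not zero
  have ha : a ≠ ⊥ := by
    intro ha
    have hsub : ∀ x y : exAlg.B, x = y := by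
      intro x y
      apply μ.injective
      apply Subtype.ext
      have hx : (μ x).1 = ⊥ := le_bot_iff.1 (le_trans (μ x).2 (le_of_eq ha))
      have hy : (μ y).1 = ⊥ := le_bot_iff.1 (le_trans (μ y).2 (le_of_eq ha))
      rw [hx, hy]
    exact exAlg_top_ne_bot (hsub _ _)
  -- a member of `K` below `a`
  obtain ⟨φ, rfl⟩ : ∃ φ, Lindenbaum.mk (theoryOf L K) φ = a := Quotient.exists_rep a
  obtain ⟨M, iM, hKM, hMφ⟩ := exists_mem_of_mk_ne_bot K ha
  obtain ⟨ν, hν⟩ := hK M hKM
  have hne : Nonempty M := ⟨ν 0⟩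
  obtain ⟨S, hS, hSM⟩ := decidable_theory hν hΦ
  have htop : Lindenbaum.mk (theoryOf L K) φ ≤ (μ ⊤).1 := by
    have h1 : μ (μ.symm ⟨Lindenbaum.mk (theoryOf L K) φ, Set.mem_Iic.2 le_rfl⟩) ≤ μ ⊤ :=
      μ.monotone le_top
    rw [OrderIso.apply_symm_apply] at h1
    exact h1
  have hbot : (μ ⊥).1 ≤ (⊥ : Lindenbaum (theoryOf L K)) := by
    have h1 : μ ⊥ ≤ μ (μ.symm ⟨(⊥ : Lindenbaum (theoryOf L K)), Set.mem_Iic.2 bot_le⟩) :=
      μ.monotone bot_le
    rw [OrderIso.apply_symm_apply] at h1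
    exact h1
  refine exAlg_no_separation (S := fun n => S (f n)) (hS.comp hf) (fun n hn => ?_) fun n hn => ?_
  · refine (hSM _).2 (realize_of_le K ?_ M hKM hMφ)
    have h1 := hμ n
    rw [hn] at h1
    have h2 : (μ ⊤).1 = Lindenbaum.mk (theoryOf L K) (Φ (f n)) ⊓
      Lindenbaum.mk (theoryOf L K) φ := congrArg Subtype.val h1
    exact le_trans htop (le_trans (le_of_eq h2) inf_le_left)
  · rw [Bool.eq_false_iff]
    intro hcon
    have hM1 : M ⊨ Φ (f n) := (hSM _).1 hcon
    have h1 := hμ n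
    rw [hn] at h1
    have h2 : (μ ⊥).1 = Lindenbaum.mk (theoryOf L K) (Φ (f n)) ⊓
      Lindenbaum.mk (theoryOf L K) φ := congrArg Subtype.val h1
    have h3 : Lindenbaum.mk (theoryOf L K) (Φ (f n) ⊓ φ) ≤
      Lindenbaum.mk (theoryOf L K) (⊥ : L.Sentence) := le_trans (le_of_eq h2.symm) hbot
    exact Language.Sentence.not_realize_bot M
      (realize_of_le K h3 M hKM ((Language.Sentence.realize_inf M).2 ⟨hM1, hMφ⟩))

/-- For a class `K` of structures that have strong constructivizations, the numerated Lindenbaum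
algebra of `Th(K)` is not `Ξ`-universal for any class `Ξ` of relations that contains `Σ⁰₁`. -/
theorem not_isUniversal (K : StructureClass L)
    (hK : ∀ (M : Type) [L.Structure M], K M → ∃ ν : ℕ → M, IsStrongConstructivization L ν)
    {Φ : ℕ → L.Sentence} (hΦ : IsGoedelEnumeration L Φ) {Ξ : (ℕ → Prop) → Prop}
    (hΞ : ∀ p, IsSigma 1 p → Ξ p) :
    ¬ (lindenbaumNum (theoryOf L K) Φ hΦ.1).IsUniversal Ξ := by
  rintro ⟨-, h⟩
  obtain ⟨a, ha⟩ := h exAlg (exAlg_isAlgebra hΞ)
  exact not_isoBelow K hK hΦ a ha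

end Pool.Agent.LindAlg
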